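import Pool.Agent.C4M.Llla

/-!
# Walks in one shot: definitions (text: `/team-store/PAPER_C4_WALKS.md`)

`N` adjacency (symmetric, irreflexive, C4-free), `P` pool arcs, a class is a partial injection
`f : V → Option V` with marked nodes `M`.
-/

set_option autoImplicit false

namespace Pool.Agent.C4K

open Finset
open scoped Classical

noncomputable section

/-- symmetric, irreflexive, C4-free -/
structure C4F {V : Type} (N : V → V → Prop) : Prop where
  symm : ∀ u v, N u v → N v u
  irr : ∀ u, ¬ N u u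
  c4 : ∀ u v x y, u ≠ v → N u x → N v x → N u y → N v y → x = y

/-- partial injection -/
def PInj {V : Type} (f : V → Option V) : Prop := ∀ x x' y, f x = some y → f x' = some y → x = x'

/-- iterates of a partial map -/
def it {V : Type} (f : V → Option V) : ℕ → V → Option V
  | 0, v => some v
  | j + 1, v => (f v).bind (it f j)

/-- entry `i` of a sequence of length `T + 1` -/
def nd {V : Type} {T : ℕ} (x : Fin (T + 1) → V) (i : ℕ) : V := x ⟨min i T, by omega⟩

/-- one class with its surroundings: adjacency, pool, the class, its marked nodes -/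
structure Cl (V : Type) where
  N : V → V → Prop
  P : V → V → Prop
  f : V → Option V
  M : V → Prop

namespace Cl

variable {V : Type}

/-- the walk relation `x → x'` : both marked, `(x, C x')` in the pool -/
def gam (C : Cl V) (x x' : V) : Prop := C.M x ∧ C.M x' ∧ ∃ y, C.f x' = some y ∧ C.P x y

/-- admissible data of one class; `d` bounds the degrees of `gam` -/
structure Ok [Fintype V] (C : Cl V) (d : ℝ) : Prop where
  c4 : C4F C.N
  PN : ∀ x y, C.P x y → C.N x y
  fN : ∀ x y, C.f x = some y → C.N x y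
  fP : ∀ x y, C.f x = some y → ¬ C.P x y
  inj : PInj C.f
  mkd : ∀ x, C.M x → ∃ y, C.f x = some y
  one_le : 1 ≤ d
  out : ∀ x, ((univ.filter fun x' => C.gam x x').card : ℝ) ≤ d
  inn : ∀ x', ((univ.filter fun x => C.gam x x').card : ℝ) ≤ d

/-- number of `gam`-paths of length `g` from `a` to `b` -/
def np [Fintype V] (C : Cl V) : ℕ → V → V → ℕ
  | 0, a, b => if a = b then 1 else 0
  | g + 1, a, b => ∑ x ∈ univ.filter (fun x => C.gam a x), np C g x b

/-- self avoiding walks with `T` steps -/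
structure IsWalk (C : Cl V) (T : ℕ) (x : Fin (T + 1) → V) : Prop where
  inj : ∀ i j, i ≤ T → j ≤ T → nd x i = nd x j → i = j
  mr : ∀ i, i ≤ T → C.M (nd x i)
  step : ∀ i, i < T → C.gam (nd x i) (nd x (i + 1))

/-- the type of walks -/
def Wk (C : Cl V) (T : ℕ) : Type := {x : Fin (T + 1) → V // C.IsWalk T x}

instance [Fintype V] (C : Cl V) (T : ℕ) : Fintype (C.Wk T) := by
  unfold Wk; infer_instance

instance (C : Cl V) (T : ℕ) : DecidableEq (C.Wk T) := Classical.decEq _

variable {C : Cl V} {T : ℕ}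

/-- node `i` of the walk -/
def Wk.n (w : C.Wk T) (i : ℕ) : V := nd w.1 i

/-- the walk contains `u` -/
def Wk.has (w : C.Wk T) (u : V) : Prop := ∃ i, i ≤ T ∧ w.n i = u

/-- the walk meets the set `U` -/
def Wk.meets (w : C.Wk T) (U : Finset V) : Prop := ∃ i, i ≤ T ∧ w.n i ∈ U

/-- `y` is the head of link `l` -/
def Wk.hd (w : C.Wk T) (l : ℕ) (y : V) : Prop := C.f (w.n (l + 1)) = some y

variable [Fintype V]

/-- number of walks of `om` which contain `u` -/
def mult (om : C.Wk T → Bool) (u : V) : ℕ := (univ.filter fun w => om w = true ∧ w.has u).card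

/-- `x → y` is a valid link of `om` -/
def lnk (om : C.Wk T → Bool) (x y : V) : Prop :=
  ∃ w : C.Wk T, om w = true ∧ ∃ i, i < T ∧ w.n i = x ∧ w.hd i y ∧ mult om x = 1 ∧
    mult om (w.n (i + 1)) = 1

/-- `x → y` is an arc of the new class -/
def arc (om : C.Wk T → Bool) (x y : V) : Prop := (mult om x = 0 ∧ C.f x = some y) ∨ lnk om x y

/-- the new class `C^om` -/
def cx (om : C.Wk T → Bool) (x : V) : Option V :=
  if h : ∃ y, arc om x y then some h.choose else none

/-- `om` without `w` -/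
def rem (om : C.Wk T → Bool) (w : C.Wk T) : C.Wk T → Bool := Function.update om w false

/-- `om` with `w` -/
def ins (om : C.Wk T → Bool) (w : C.Wk T) : C.Wk T → Bool := Function.update om w true

/-- closure `(w, i, l, t)` -/
def clo (om : C.Wk T → Bool) (w : C.Wk T) (i l t : ℕ) : Prop :=
  om w = true ∧ i ≤ l ∧ l < T ∧ ∃ y, w.hd l y ∧ it (cx (rem om w)) t y = some (w.n i) ∧
    ∀ a b, a < b → b ≤ t → it (cx (rem om w)) a y ≠ it (cx (rem om w)) b y

/-- weak closure: without the condition that the nodes are different -/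
def wclo (om : C.Wk T → Bool) (w : C.Wk T) (i l t : ℕ) : Prop :=
  om w = true ∧ i ≤ l ∧ l < T ∧ ∃ y, w.hd l y ∧ it (cx (rem om w)) t y = some (w.n i)

/-- forward nodes -/
def fw (L : ℕ) (om : C.Wk T → Bool) (v : V) : Finset V :=
  univ.filter fun u => ∃ j, j ≤ L ∧ it (cx om) j v = some u

/-- backward nodes -/
def bw (L : ℕ) (om : C.Wk T → Bool) (v : V) : Finset V :=
  univ.filter fun u => ∃ j, j ≤ L ∧ it (cx om) j u = some v

/-- nodes read by `v` -/
def rd (L : ℕ) (om : C.Wk T → Bool) (v : V) : Finset V :=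
  univ.filter fun u => u ∈ fw L om v ∨
    (∃ w : C.Wk T, om w = true ∧ ∃ i, i < T ∧ w.n (i + 1) = u ∧ w.n i ∈ fw L om v ∧
      mult om (w.n i) = 1) ∨
    (∃ u' ∈ bw L om v, C.f u = some u') ∨
    (∃ w : C.Wk T, om w = true ∧ ∃ i, i < T ∧ w.n i = u ∧ mult om (w.n (i + 1)) = 1 ∧
      ∃ u' ∈ bw L om v, w.hd i u')

/-- all nodes read by `v`, also after the removal of one walk -/
def nod (L : ℕ) (om : C.Wk T → Bool) (v : V) : Finset V :=
  univ.filter fun u => u ∈ rd L om v ∨
    (∃ w : C.Wk T, om w = true ∧ w.meets (rd L om v) ∧ u ∈ rd L (rem om w) v) ∨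
    (∃ w : C.Wk T, om w = true ∧ ∃ l, l < T ∧ w.n l = v ∧ ∃ y, w.hd l y ∧
      u ∈ rd L (rem om w) y)

/-- `v` loses its out-arc or its in-arc -/
def Dv (om : C.Wk T → Bool) (v : V) : Prop :=
  ((∃ y, C.f v = some y) ∧ cx om v = none) ∨ ((∃ x, C.f x = some v) ∧ ∀ x, cx om x ≠ some v)

/-- `v` is the tail of the link of a short closure -/
def Jt (t0 : ℕ) (om : C.Wk T → Bool) (v : V) : Prop :=
  ∃ w i l t, t ≤ t0 ∧ wclo om w i l t ∧ w.n l = v

/-- `v` is the head of the link of a short closure -/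
def Jh (t0 : ℕ) (om : C.Wk T → Bool) (v : V) : Prop :=
  ∃ w i l t, t ≤ t0 ∧ wclo om w i l t ∧ w.hd l v

/-- `v` is a node of a (weak) closure of length `j + j'` with `t1 < j + j' ≤ t2` -/
def Iv (t1 t2 : ℕ) (om : C.Wk T → Bool) (v : V) : Prop :=
  ∃ (w : C.Wk T) (i l : ℕ) (y : V) (j j' : ℕ), om w = true ∧ i ≤ l ∧ l < T ∧ w.hd l y ∧
    it (cx (rem om w)) j y = some v ∧ it (cx (rem om w)) j' v = some (w.n i) ∧
    t1 < j + j' ∧ j + j' ≤ t2

/-- the weights of the random set of walks -/
def qq {W : Type} (p : ℝ) : W → Bool → ℝ := fun _ b => if b then p else 1 - p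

/-- expectation over the random set of walks -/
def E (C : Cl V) (T : ℕ) (p : ℝ) (g : (C.Wk T → Bool) → ℝ) : ℝ :=
  LLLA.Ex (α := fun _ : C.Wk T => Bool) (qq p) g

/-- probability -/
def Pr (C : Cl V) (T : ℕ) (p : ℝ) (X : Set (C.Wk T → Bool)) : ℝ :=
  LLLA.Pr (α := fun _ : C.Wk T => Bool) (qq p) X

end Cl

end

end Pool.Agent.C4K
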