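import Pool.Agent.C4K.Defs

/-!
# Statements of the counting modules WCN, P3, HIT, SSS, KST
-/

set_option autoImplicit false

namespace Pool.Agent.C4K

open Finset
open scoped Classical

noncomputable section

/-- numerical data of one class -/
structure Par {V : Type} [Fintype V] (C : Cl V) (d : ℝ) (T : ℕ) (p z r : ℝ) : Prop where
  ok : C.Ok d
  T1 : 1 ≤ T
  Td : 100 * (T : ℝ) ≤ d
  p0 : 0 < p
  ph : p ≤ 1 / 2
  pd : p * d ^ T ≤ 2 * z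
  z0 : 0 < z
  zr : ((T : ℝ) + 1) * z = r
  r1 : 2 * r ≤ 1

/-- WCN [N1], [N2], [N4] : numbers of paths -/
structure Cnt {V : Type} [Fintype V] (C : Cl V) (d : ℝ) : Prop where
  n1a : ∀ g a, (∑ b, (C.np g a b : ℝ)) ≤ d ^ g
  n1b : ∀ g b, (∑ a, (C.np g a b : ℝ)) ≤ d ^ g
  n1c : ∀ g a b, 1 ≤ g → (C.np g a b : ℝ) ≤ d ^ (g - 1)
  n11 : ∀ a, C.np 1 a a = 0
  n2a : ∀ a, (∑ b, (C.np 2 a b : ℝ) ^ 2) ≤ 2 * d ^ 2
  n2b : ∀ b, (∑ a, (C.np 2 a b : ℝ) ^ 2) ≤ 2 * d ^ 2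
  n4 : ∀ g a b, 4 ≤ g → (C.np g a b : ℝ) ≤ 2 * d ^ (g - 2)
  add : ∀ g g' a b, C.np (g + g') a b = ∑ u, C.np g a u * C.np g' u b

def WCNStmt : Prop := ∀ (V : Type) [Fintype V] (C : Cl V) (d : ℝ), C.Ok d → Cnt C d

/-- WPC [P1], [P2] : numbers of walks with prescribed nodes -/
def WPCStmt : Prop := ∀ (V : Type) [Fintype V] (C : Cl V) (d : ℝ) (T : ℕ) (p z r : ℝ),
  Par C d T p z r →
    (∀ i a, i ≤ T → p * ((univ.filter fun w : C.Wk T => w.n i = a).card : ℝ) ≤ 2 * z) ∧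
    (∀ u, p * ((univ.filter fun w : C.Wk T => w.has u).card : ℝ) ≤ 2 * r) ∧
    ∀ i g a b, i + g ≤ T →
      p * ((univ.filter fun w : C.Wk T => w.n i = a ∧ w.n (i + g) = b).card : ℝ) ≤
        2 * z * C.np g a b / d ^ g

/-- KST: arcs of the pool between two sets -/
def KSTStmt : Prop := ∀ (V : Type) [Fintype V] (C : Cl V) (d : ℝ), C.Ok d →
  ∀ F B : Finset V, (((F ×ˢ B).filter fun x => C.P x.1 x.2).card : ℝ) ≤
    B.card + F.card * Real.sqrt B.card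

/-- the pairs `(i, l)`, `i ≤ l < T`, with a property -/
def prs (T : ℕ) (Q : ℕ → ℕ → Prop) : ℝ :=
  (((range T ×ˢ range T).filter fun x => x.1 ≤ x.2 ∧ Q x.1 x.2).card : ℝ)

/-- SSS [S], [S0], [S1] -/
def SSSStmt : Prop := ∀ (V : Type) [Fintype V] (C : Cl V) (d : ℝ) (T : ℕ) (p z r : ℝ),
  Par C d T p z r →
    (∀ (F B : Finset V) (t : ℕ), 1 ≤ t → F.card ≤ t + 1 → B.card ≤ t + 1 →
      p * ∑ w : C.Wk T, prs T (fun i l => w.n i ∈ F ∧ ∃ y ∈ B, w.hd l y) ≤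
        r * (30 * (t * Real.sqrt t) / d + 16 * T * (t : ℝ) ^ 2 / d ^ 2)) ∧
    (∀ (F : V → Finset V) (t : ℕ) (v : V), (∀ y, (F y).card ≤ t + 1) →
      (univ.filter fun y => v ∈ F y).card ≤ t + 1 →
      p * ∑ w : C.Wk T, prs T (fun i l => w.n l = v ∧ ∃ y, w.hd l y ∧ w.n i ∈ F y) ≤
        10 * r * (t + 1) / d) ∧
    (∀ (F : Finset V) (t : ℕ) (v : V), F.card ≤ t + 1 →
      p * ∑ w : C.Wk T, prs T (fun i l => w.hd l v ∧ w.n i ∈ F) ≤ 10 * r * (t + 1) / d)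

/-- lower bounds of the degrees of `gam` -/
structure Low {V : Type} [Fintype V] (C : Cl V) (s1 : ℝ) (T : ℕ) (p z : ℝ) : Prop where
  s0 : 0 ≤ s1
  out : ∀ x, C.M x → s1 ≤ ((univ.filter fun x' => C.gam x x').card : ℝ)
  inn : ∀ x', C.M x' → s1 ≤ ((univ.filter fun x => C.gam x x').card : ℝ)
  low : 9 / 10 * z ≤ p * s1 ^ T

/-- P3: lower bound for the number of walks through a marked node -/
def P3Stmt : Prop := ∀ (V : Type) [Fintype V] (C : Cl V) (d : ℝ) (T : ℕ) (p z r s1 : ℝ),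
  Par C d T p z r → Low C s1 T p z → ∀ i a, i ≤ T → C.M a →
    z / 2 ≤ p * ((univ.filter fun w : C.Wk T => w.n i = a).card : ℝ)

/-- HIT: lower bound for the number of walks meeting a set of marked nodes -/
def HITStmt : Prop := ∀ (V : Type) [Fintype V] (C : Cl V) (d : ℝ) (T : ℕ) (p z r s1 : ℝ),
  Par C d T p z r → Low C s1 T p z → ∀ I : Finset V, (∀ u ∈ I, C.M u) →
    100 * Real.sqrt I.card ≤ d → 100 * T * (I.card : ℝ) ≤ d ^ 2 →
    r * I.card / 12 ≤ p * ((univ.filter fun w : C.Wk T => w.meets I).card : ℝ)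

end

end Pool.Agent.C4K
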