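import Pool.Agent.C4K.Defs

/-!
# Statements of the deterministic modules PIM, CLO, RDS, RFO
-/

set_option autoImplicit false

namespace Pool.Agent.C4K

open Finset Cl
open scoped Classical

noncomputable section

/-- PIM [PI], [MON], [DEF] : the new class is a partial injection etc. -/
structure Pim {V : Type} [Fintype V] (C : Cl V) (T : ℕ) : Prop where
  /-- `cx` and `arc` agree -/
  iff : ∀ (om : C.Wk T → Bool) x y, cx om x = some y ↔ arc om x y
  inj : ∀ om : C.Wk T → Bool, PInj (cx om)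
  dom : ∀ (om : C.Wk T → Bool) x y, cx om x = some y → ∃ y', C.f x = some y'
  ran : ∀ (om : C.Wk T → Bool) x y, cx om x = some y → ∃ x', C.f x' = some y
  unm : ∀ (om : C.Wk T → Bool) x, ¬ C.M x → cx om x = C.f x
  new : ∀ (om : C.Wk T → Bool) x y, lnk om x y → C.M x ∧ C.P x y
  /-- arcs which are not valid links of `w` stay when `w` is removed -/
  mon : ∀ (om : C.Wk T → Bool) (w : C.Wk T) x y, om w = true → cx om x = some y →
    ¬ (mult om x = 1 ∧ w.has x) → cx (rem om w) x = some y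
  def' : ∀ (om : C.Wk T → Bool) v, Dv om v →
    (∃ w : C.Wk T, om w = true ∧ (w.n T = v ∨ C.f (w.n 0) = some v)) ∨ 2 ≤ mult om v ∨
    (∃ a, C.f a = some v ∧ 2 ≤ mult om a) ∨
    (∃ w : C.Wk T, om w = true ∧ ∃ i, i < T ∧ w.n i = v ∧ 2 ≤ mult om (w.n (i + 1))) ∨
    (∃ w : C.Wk T, om w = true ∧ ∃ i, i < T ∧ w.hd i v ∧ 2 ≤ mult om (w.n i))

def PIMStmt : Prop := ∀ (V : Type) [Fintype V] (C : Cl V) (d : ℝ) (T : ℕ), C.Ok d → Pim C T

/-- ITR: iterates of partial injections -/
structure Itr {V : Type} (f : V → Option V) : Prop where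
  add : ∀ i j v, it f (i + j) v = (it f i v).bind (it f j)
  succ : ∀ j v, it f (j + 1) v = (it f j v).bind f
  inj : PInj f → ∀ j, PInj (it f j)
  /-- a forward set is small -/
  fwd : ∀ [Fintype V] L v, (univ.filter fun u => ∃ j, j ≤ L ∧ it f j v = some u).card ≤ L + 1
  /-- a backward set is small -/
  bwd : PInj f → ∀ [Fintype V] L v,
    (univ.filter fun u => ∃ j, j ≤ L ∧ it f j u = some v).card ≤ L + 1
  /-- on a path which meets itself the start is repeated -/
  rep : PInj f → ∀ v i j u, it f i v = some u → it f (i + j) v = some u → it f j v = some v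

def ITRStmt : Prop := ∀ (V : Type) (f : V → Option V), Itr f

/-- CLO [CLO]: a cycle of the new class through a link contains the path of a closure -/
def CLOStmt : Prop := ∀ (V : Type) [Fintype V] (C : Cl V) (d : ℝ) (T : ℕ), C.Ok d →
  ∀ (om : C.Wk T → Bool) (x : V) (m : ℕ), 1 ≤ m → it (cx om) m x = some x →
    (∃ a u, it (cx om) a x = some u ∧ mult om u ≠ 0) →
    ∃ (w : C.Wk T) (i l t : ℕ) (y : V), clo om w i l t ∧ w.hd l y ∧ t < m ∧
      cx om (w.n l) = some y ∧ (∃ a, it (cx om) a x = some (w.n l)) ∧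
      ∀ j, j < t → ∃ u u', it (cx (rem om w)) j y = some u ∧
        it (cx (rem om w)) (j + 1) y = some u' ∧ cx om u = some u' ∧ ∃ a, it (cx om) a x = some u

/-- OLD: a cycle without links is a cycle of the old class -/
def OLDStmt : Prop := ∀ (V : Type) [Fintype V] (C : Cl V) (d : ℝ) (T : ℕ), C.Ok d →
  ∀ (om : C.Wk T → Bool) (x : V) (m : ℕ), it (cx om) m x = some x →
    (∀ a u, it (cx om) a x = some u → mult om u = 0) → ∀ a, it C.f a x = it (cx om) a x

/-- RDS [R1], [R2] : reading sets are stopping sets -/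
structure Rds {V : Type} [Fintype V] (C : Cl V) (T L : ℕ) : Prop where
  card : ∀ (om : C.Wk T → Bool) v, (rd L om v).card ≤ 4 * (L + 1) + 1
  self : ∀ (om : C.Wk T → Bool) v, v ∈ rd L om v
  stop : ∀ (om om' : C.Wk T → Bool) v, (∀ w, w.meets (rd L om v) → om' w = om w) →
    rd L om' v = rd L om v
  fwd : ∀ (om om' : C.Wk T → Bool) v, (∀ w, w.meets (rd L om v) → om' w = om w) →
    ∀ j, j ≤ L + 1 → it (cx om') j v = it (cx om) j v
  bwd : ∀ (om om' : C.Wk T → Bool) v, (∀ w, w.meets (rd L om v) → om' w = om w) →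
    ∀ j u, j ≤ L + 1 → (it (cx om') j u = some v ↔ it (cx om) j u = some v)
  /-- the walk `w` meets the reading set with `w` iff it meets the one without `w` -/
  meet : ∀ (om : C.Wk T → Bool) (w : C.Wk T) v,
    w.meets (rd L om v) ↔ w.meets (rd L (rem om w) v)
  /-- [R4]: the number of vertices which read `u` -/
  rev : ∀ (om : C.Wk T → Bool) u,
    (univ.filter fun v => u ∈ rd L om v).card ≤ 2 * (L + 1) * (2 + mult om u)

def RDSStmt : Prop := ∀ (V : Type) [Fintype V] (C : Cl V) (d : ℝ) (T L : ℕ), C.Ok d → 1 ≤ L →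
  Rds C T L

/-- NOD [R3] : the large reading sets determine everything at `v` -/
structure Nds {V : Type} [Fintype V] (C : Cl V) (T L : ℕ) : Prop where
  stop : ∀ (om om' : C.Wk T → Bool) v, (∀ w, w.meets (nod L om v) → om' w = om w) →
    nod L om' v = nod L om v
  dv : ∀ (om om' : C.Wk T → Bool) v, (∀ w, w.meets (nod L om v) → om' w = om w) →
    (Dv om' v ↔ Dv om v)
  jt : ∀ (om om' : C.Wk T → Bool) v, (∀ w, w.meets (nod L om v) → om' w = om w) →
    ∀ t0, t0 ≤ L → (Jt t0 om' v ↔ Jt t0 om v)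
  jh : ∀ (om om' : C.Wk T → Bool) v, (∀ w, w.meets (nod L om v) → om' w = om w) →
    ∀ t0, t0 ≤ L → (Jh t0 om' v ↔ Jh t0 om v)
  iv : ∀ (om om' : C.Wk T → Bool) v, (∀ w, w.meets (nod L om v) → om' w = om w) →
    ∀ t1 t2, t2 ≤ L → (Iv t1 t2 om' v ↔ Iv t1 t2 om v)
  lo : ∀ (om om' : C.Wk T → Bool) v, (∀ w, w.meets (nod L om v) → om' w = om w) →
    ∀ y, lnk om' v y ↔ lnk om v y
  li : ∀ (om om' : C.Wk T → Bool) v, (∀ w, w.meets (nod L om v) → om' w = om w) →
    ∀ x, lnk om' x v ↔ lnk om x v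
  /-- size, if all multiplicities on it are less than `K0` -/
  card : ∀ (om : C.Wk T → Bool) v K0, (∀ u ∈ nod L om v, mult om u < K0) →
    (nod L om v).card ≤ (4 * L + 5) * (1 + K0 * (4 * L + 5) + K0)

def NODStmt : Prop := ∀ (V : Type) [Fintype V] (C : Cl V) (d : ℝ) (T L : ℕ), C.Ok d → 1 ≤ L →
  Nds C T L

/-- MRK: every `L1` consecutive nodes of a path of the new class contain a marked node,
so a path with `m` different nodes contains at least `m / L1` marked nodes -/
def MRKStmt : Prop := ∀ (V : Type) [Fintype V] (C : Cl V) (d : ℝ) (T L1 : ℕ), C.Ok d →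
  1 ≤ L1 → (∀ u, (∀ j, j < L1 → it C.f j u ≠ none) → ∃ j x, j < L1 ∧ it C.f j u = some x ∧ C.M x) →
  ∀ (om : C.Wk T → Bool) (u : V) (m : ℕ), (∀ j, j < m → it (cx om) j u ≠ none) →
    (∀ a b, a < b → b < m → it (cx om) a u ≠ it (cx om) b u) →
    m / L1 ≤ (univ.filter fun x => C.M x ∧ ∃ j, j < m ∧ it (cx om) j u = some x).card

end

end Pool.Agent.C4K
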