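import Pool.Agent.C4K.StNum

/-!
# General statements, with the linear statistic (LIN)
-/

set_option autoImplicit false

namespace Pool.Agent.C4K

open Finset Cl
open scoped Classical

noncomputable section

/-- SUMG: the lopsided local lemma for the walks, general version -/
def SUMGStmt : Prop := ∀ (V : Type) [Fintype V] (n : ℕ) (C : Fin n → Cl V) (d : ℝ) (T : ℕ)
  (p z r : ℝ) (L K0 : ℕ), 1 ≤ n → (∀ c, Par (C c) d T p z r) → 1 ≤ L → T ≤ L → 2 ≤ K0 →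
  ∀ (J : Type) [Fintype J] (A : J → Set (Cf C T)) (vs : J → Finset V) (B1 : ℕ) (ε : ℝ), 1 ≤ B1 →
    0 ≤ ε → ε ≤ 1 / 4 → (∀ j, (vs j).card ≤ B1) →
    (∀ v, (univ.filter fun j => v ∈ vs j).card ≤ B1) →
    (∀ j om om', (∀ v ∈ vs j, agr L om om' v) → (om' ∈ A j ↔ om ∈ A j)) →
    (∀ j om, om ∈ A j → ∀ v ∈ vs j, ∀ c, ∀ u ∈ nod L (om c) v, mult (om c) u < K0) →
    (∀ j c om, PC C T p {et | fixc c om et ∈ A j} ≤ ε) →
    ∀ (H : Type) [Fintype H] (X : ∀ c : Fin n, H → Set ((C c).Wk T → Bool))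
      (I : Fin n → H → Finset V) (M0 : ℕ) (ε6 : ℝ), 0 ≤ ε6 → ε6 ≤ 1 / 4 →
      (∀ c h, (I c h).card ≤ M0) → (∀ c u, (univ.filter fun h => u ∈ I c h).card ≤ M0) →
      (∀ c h om om', (∀ w : (C c).Wk T, w.meets (I c h) → om' w = om w) →
        (om' ∈ X c h ↔ om ∈ X c h)) →
      (∀ c h om, om ∈ X c h → ∀ u ∈ I c h, mult om u < K0) →
      (∀ c h, (C c).Pr T p (X c h) ≤ ε6) →
      (∀ c h w, (C c).Pr T p {om | ins om w ∈ X c h} ≤ ε6) →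
      ((B1 : ℝ) * n * NB L K0 + M0) * K0 * (T + 1) *
          (B1 * ε * (200 * ((L : ℝ) + 1) ^ 2) + M0 * ε6) +
        ((B1 : ℝ) * n * NB L K0 + M0) * (B1 * ε * (400 * ((L : ℝ) + 1) ^ 3) +
          (T + 1) * (2 * r) ^ K0 + (T + 1) * M0 * ε6) ≤ 1 / 4 →
      ∃ om : Cf C T, (∀ j, om ∉ A j) ∧ (∀ c h, om c ∉ X c h) ∧ ∀ c u, mult (om c) u < K0

/-- `v` loses an arc in class `c` -/
def lose {V : Type} {n : ℕ} (C : Fin n → Cl V) (D : Fin n → V → Option V) (c : Fin n) (v : V) :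
    Prop :=
  ((∃ y, (C c).f v = some y) ∧ D c v = none) ∨ ((∃ x, (C c).f x = some v) ∧ ∀ x, D c x ≠ some v)

/-- the possible reasons for a loss at `v` in class `c` -/
def why {V : Type} [Fintype V] {n : ℕ} {C : Fin n → Cl V} {T : ℕ} (A : ℕ) (τ : ℕ → ℕ)
    (om : Cf C T) (κ : ℕ → Fin n → V → Bool) (c : Fin n) (v : V) : Prop :=
  (Dv (om c) v ∨ Jt (τ 0) (om c) v ∨ Jh (τ 0) (om c) v) ∨
  ((∃ c' y, c' ≠ c ∧ lnk (om c) v y ∧ lnk (om c') v y) ∨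
    (∃ c' x, c' ≠ c ∧ lnk (om c) x v ∧ lnk (om c') x v)) ∨
  ((∃ a, a ≤ A ∧ κ a c v = true ∧ (a = A ∨ Iv (τ a) (τ (a + 1)) (om c) v)) ∨
    ∃ a v', a ≤ A ∧ cx (om c) v' = some v ∧ κ a c v' = true ∧
      (a = A ∨ Iv (τ a) (τ (a + 1)) (om c) v))

/-- FIN2: as FIN, with the reasons -/
def FIN2Stmt : Prop := ∀ (V : Type) [Fintype V] (n : ℕ) (C : Fin n → Cl V) (d : ℝ)
  (T L L0 A m0 : ℕ) (τ : ℕ → ℕ) (om : Cf C T) (κ : ℕ → Fin n → V → Bool),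
  (∀ c, (C c).Ok d) → (∀ c c', (C c).P = (C c').P) → 1 ≤ T → 1 ≤ m0 →
  (∀ c c' x y, (C c).f x = some y → (C c').f x = some y → c = c') →
  (∀ c v, (∀ j, j < L0 → it (C c).f j v ≠ none) →
    ∃ j u, it (C c).f j v = some u ∧ mult (om c) u ≠ 0) →
  τ A = L → (∀ a, a < A → τ a ≤ τ (a + 1)) → 1 ≤ A →
  (∀ v, (univ.filter fun c => Dv (om c) v).card ≤ m0) →
  (∀ v, (univ.filter fun c => Jt (τ 0) (om c) v).card ≤ m0) →
  (∀ v, (univ.filter fun c => Jh (τ 0) (om c) v).card ≤ m0) →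
  (∀ v, om ∉ dupO m0 v) → (∀ v, om ∉ dupI m0 v) → Coins L A m0 τ om κ →
  ∃ D : Fin n → V → Option V, Out C (12 * m0) D ∧ ∀ c v, lose C D c v → why A τ om κ c v

/-- COIG: as COI, with linear events for the coins -/
def COIGStmt : Prop := ∀ (V : Type) [Fintype V] (n : ℕ) (C : Fin n → Cl V) (d : ℝ)
  (T L L1 K0 A m0 : ℕ) (τ m : ℕ → ℕ) (π : ℕ → ℝ) (ε : ℝ) (om : Cf C T),
  (∀ c, (C c).Ok d) → 1 ≤ L → T ≤ L → 1 ≤ L1 → 1 ≤ m0 → (∀ c, MK (C c) L1) → τ A = L →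
  (∀ a, a < A → τ a ≤ τ (a + 1)) → (∀ c u, mult (om c) u < K0) →
  (∀ a, a < A → ∀ v, (univ.filter fun c => Iv (τ a) (τ (a + 1)) (om c) v).card ≤ m a) →
  (∀ a, 0 ≤ π a ∧ π a ≤ 1) → 0 ≤ ε → (∀ a, a ≤ A → (1 - π a) ^ (τ a / L1) ≤ ε) →
  (Real.exp 1 * ((∑ a ∈ range A, m a * π a) + n * π A) / m0) ^ m0 ≤ ε →
  ∀ (U : Type) [Fintype U] (g : U → ℕ → Fin n → V → ℝ) (wm X : ℝ) (S2 S3 : ℕ), 0 < wm →
    (∀ u a c v, 0 ≤ g u a c v ∧ g u a c v ≤ wm) →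
    (∀ u, 7 * (∑ a ∈ range (A + 1), ∑ c, ∑ v, g u a c v * π a) ≤ X) →
    Real.exp (-(X / wm)) ≤ ε →
    (∀ u, ((range (A + 1) ×ˢ (univ : Finset (Fin n × V))).filter fun x =>
      g u x.1 x.2.1 x.2.2 ≠ 0).card ≤ S2) →
    (∀ c v, (univ.filter fun u => ∃ a, a ≤ A ∧ g u a c v ≠ 0).card ≤ S3) →
    4 * ε * ((((A : ℝ) + 1) * n + L + S2) *
      (2 + L + K0 * (4 * L + 5) * (T : ℝ) ^ 2 + S3)) ≤ 1 → 4 * ε ≤ 1 →
    ∃ κ : ℕ → Fin n → V → Bool, Coins L A m0 τ om κ ∧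
      ∀ u, (∑ a ∈ range (A + 1), ∑ c, ∑ v, g u a c v * (if κ a c v = true then 1 else 0)) ≤ X

/-! ## the linear statistic -/

/-- upper bound for the losses of one class: all walks near the support -/
def gst {V : Type} [Fintype V] {C : Cl V} {T : ℕ} (a : V → ℝ) (om : C.Wk T → Bool) : ℝ :=
  ∑ v, a v * ((mult om v : ℝ) + ∑ x ∈ univ.filter (fun x => C.f x = some v), (mult om x : ℝ))

/-- the nodes read by `gst` -/
def spt {V : Type} [Fintype V] (C : Cl V) (a : V → ℝ) : Finset V :=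
  univ.filter fun u => a u ≠ 0 ∨ ∃ v, C.f u = some v ∧ a v ≠ 0

/-- LI1 (one class) -/
def LI1Stmt : Prop := ∀ (V : Type) [Fintype V] (C : Cl V) (d : ℝ) (T : ℕ) (p z r : ℝ),
  Par C d T p z r → ∀ (a : V → ℝ) (wm b : ℝ), 0 < wm → (∀ v, 0 ≤ a v ∧ a v ≤ wm) →
    (∑ v, a v) ≤ 100 → 4 * ((T : ℝ) + 1) * wm ≤ b → 7 * (400 * r) ≤ b / 2 →
    C.Pr T p {om | b ≤ gst a om} ≤ Real.exp (-(b / (4 * ((T : ℝ) + 1) * wm))) ∧
    (∀ w, C.Pr T p {om | b ≤ gst a (ins om w)} ≤ Real.exp (-(b / (4 * ((T : ℝ) + 1) * wm)))) ∧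
    (∀ om om' : C.Wk T → Bool, (∀ w, w.meets (spt C a) → om' w = om w) → gst a om' = gst a om) ∧
    ∀ (om : C.Wk T → Bool) t0,
      (∑ v, a v * (if Dv om v ∨ Jt t0 om v ∨ Jh t0 om v then 1 else 0)) ≤ gst a om

/-- LI2: Chernoff for sums over the classes, one class fixed -/
def LI2Stmt : Prop := ∀ (V : Type) [Fintype V] (n : ℕ) (C : Fin n → Cl V) (T : ℕ) (p : ℝ),
  0 ≤ p → p ≤ 1 → ∀ (F : ∀ c, ((C c).Wk T → Bool) → ℝ) (b X : ℝ), 0 < b →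
    (∀ c om, 0 ≤ F c om ∧ F c om ≤ b) → 7 * (∑ c, (C c).E T p (F c)) ≤ X →
    ∀ (c : Fin n) (om : Cf C T),
      PC C T p {et | X + b < ∑ c', F c' (fixc c om et c')} ≤ Real.exp (-(X / b))

/-- duplicate links of class `c` at `v` -/
def dup {V : Type} [Fintype V] {n : ℕ} {C : Fin n → Cl V} {T : ℕ} (om : Cf C T) (c : Fin n)
    (v : V) : Prop :=
  (∃ c' y, c' ≠ c ∧ lnk (om c) v y ∧ lnk (om c') v y) ∨
    (∃ c' x, c' ≠ c ∧ lnk (om c) x v ∧ lnk (om c') x v)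

/-- LI3: the duplicate links in the linear statistic, one class fixed.  Proof: pairs of classes are
separated by one of `N2` bits; given the classes `A` with bit 0 (good: no `dupO (m+1)`, `dupI (m+1)`
on the support, `∑ over A of a c v [link at v] ≤ Y + 100`, at most `Y + 1` classes of `A` have a
link at `v`), the sum over the classes of `B` is a sum over independent walks with weights at most
`wq = 8 (m + 1) (T + 1) wm`. -/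
def LI3Stmt : Prop := ∀ (V : Type) [Fintype V] (n : ℕ) (C : Fin n → Cl V) (d : ℝ) (T : ℕ)
  (p z r : ℝ), (∀ c, Par (C c) d T p z r) → ∀ (a : Fin n → V → ℝ) (wm Y X : ℝ) (N2 m B1 : ℕ),
    0 < wm → (∀ c v, 0 ≤ a c v ∧ a c v ≤ wm) → (∀ c, (∑ v, a c v) ≤ 100) →
    (univ.filter fun v => ∃ c, a c v ≠ 0).card ≤ B1 → n ≤ 2 ^ N2 → 1 ≤ m → 0 < X → 1 ≤ Y →
    7 * (200 * n * r) ≤ Y → 7 * ((2 * r / d) * n * (300 * (Y + 1))) ≤ X →
    ∀ (c : Fin n) (om : Cf C T),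
      PC C T p {et | (4 * ((N2 : ℝ) + 1)) * X < ∑ c', ∑ v, a c' v *
        (if dup (fixc c om et) c' v then 1 else 0)} ≤
      4 * ((N2 : ℝ) + 1) * (B1 * (2 * (Real.exp 1 * (n ^ 2 * (4 * r ^ 2 / d)) / m) ^ m) +
        2 * Real.exp (-(Y / 100)) + 2 * B1 * Real.exp (-Y) +
        2 * Real.exp (-(X / (8 * ((m : ℝ) + 1) * ((T : ℝ) + 1) * wm))))

end

end Pool.Agent.C4K
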