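import Pool.Agent.C4K.StPr
import Pool.Agent.C4M.Gen

/-!
# Statements of the modules for all classes: PRC, PRD2, DUP, SUM, ISE, COI, FIN
-/

set_option autoImplicit false

namespace Pool.Agent.C4K

open Finset Cl
open scoped Classical

noncomputable section

/-- configurations of all classes -/
abbrev Cf {V : Type} {n : ℕ} (C : Fin n → Cl V) (T : ℕ) : Type := ∀ c, (C c).Wk T → Bool

/-- probability over all classes -/
def PC {V : Type} [Fintype V] {n : ℕ} (C : Fin n → Cl V) (T : ℕ) (p : ℝ) (X : Set (Cf C T)) : ℝ :=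
  LLLA.Pr (W := Fin n) (α := fun c => (C c).Wk T → Bool)
    (LLLA.cwt (K := fun c => (C c).Wk T) (β := fun _ => Bool) fun _ => qq p) X

/-- class `c` from `om`, the other classes from `et` -/
def fixc {V : Type} {n : ℕ} {C : Fin n → Cl V} {T : ℕ} (c : Fin n) (om et : Cf C T) : Cf C T :=
  LLLA.mix (W := Fin n) (α := fun c => (C c).Wk T → Bool) {c} om et

/-- at least `m` classes are bad -/
def evC {V : Type} {n : ℕ} {C : Fin n → Cl V} {T : ℕ} (X : ∀ c, Set ((C c).Wk T → Bool))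
    (m : ℕ) : Set (Cf C T) := {om | m ≤ (univ.filter fun c => om c ∈ X c).card}

/-- `m` disjoint pairs of classes with the same out-link at `v` -/
def dupO {V : Type} [Fintype V] {n : ℕ} {C : Fin n → Cl V} {T : ℕ} (m : ℕ) (v : V) :
    Set (Cf C T) :=
  {om | ∃ B : Finset (Fin n × Fin n), B.card = m ∧
    (∀ a ∈ B, a.1 ≠ a.2 ∧ ∃ y, lnk (om a.1) v y ∧ lnk (om a.2) v y) ∧
    ∀ a ∈ B, ∀ b ∈ B, a ≠ b → Disjoint ({a.1, a.2} : Finset (Fin n)) {b.1, b.2}}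

/-- `m` disjoint pairs of classes with the same in-link at `v` -/
def dupI {V : Type} [Fintype V] {n : ℕ} {C : Fin n → Cl V} {T : ℕ} (m : ℕ) (v : V) :
    Set (Cf C T) :=
  {om | ∃ B : Finset (Fin n × Fin n), B.card = m ∧
    (∀ a ∈ B, a.1 ≠ a.2 ∧ ∃ x, lnk (om a.1) x v ∧ lnk (om a.2) x v) ∧
    ∀ a ∈ B, ∀ b ∈ B, a ≠ b → Disjoint ({a.1, a.2} : Finset (Fin n)) {b.1, b.2}}

/-- PRC: probability of `evC`, one class fixed (from `Pr_items'`, `Pr_class`) -/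
def PRCStmt : Prop := ∀ (V : Type) [Fintype V] (n : ℕ) (C : Fin n → Cl V) (T : ℕ) (p : ℝ),
  0 ≤ p → p ≤ 1 → ∀ (X : ∀ c, Set ((C c).Wk T → Bool)) (μ : ℝ) (m : ℕ), 1 ≤ m →
    (∑ c, (C c).Pr T p (X c)) ≤ μ → ∀ (c : Fin n) (om : Cf C T),
      PC C T p {et | fixc c om et ∈ evC X (m + 1)} ≤ (Real.exp 1 * μ / m) ^ m

/-- PRE: probability of `dupO`, `dupI`, one class fixed (from `Pr_items'`, PLK) -/
def PREStmt : Prop := ∀ (V : Type) [Fintype V] (n : ℕ) (C : Fin n → Cl V) (d : ℝ) (T : ℕ)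
  (p z r : ℝ), (∀ c, Par (C c) d T p z r) → ∀ (v : V) (m : ℕ), 1 ≤ m →
    ∀ (c : Fin n) (om : Cf C T),
      PC C T p {et | fixc c om et ∈ dupO (m + 1) v} ≤
        (Real.exp 1 * (n ^ 2 * (4 * r ^ 2 / d)) / m) ^ m ∧
      PC C T p {et | fixc c om et ∈ dupI (m + 1) v} ≤
        (Real.exp 1 * (n ^ 2 * (4 * r ^ 2 / d)) / m) ^ m

/-- DUP: few disjoint pairs, few classes with duplicate links -/
def DUPStmt : Prop := ∀ (V : Type) [Fintype V] (n : ℕ) (C : Fin n → Cl V) (d : ℝ) (T : ℕ),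
  (∀ c, (C c).Ok d) → ∀ (om : Cf C T) (v : V) (m : ℕ), 1 ≤ m →
    (om ∉ dupO m v → (univ.filter fun c => ∃ c' y, c' ≠ c ∧ lnk (om c) v y ∧
      lnk (om c') v y).card ≤ 3 * m) ∧
    (om ∉ dupI m v → (univ.filter fun c => ∃ c' x, c' ≠ c ∧ lnk (om c) x v ∧
      lnk (om c') x v).card ≤ 3 * m)

/-- `om` and `om'` agree on everything read by `v` -/
def agr {V : Type} [Fintype V] {n : ℕ} {C : Fin n → Cl V} {T : ℕ} (L : ℕ) (om om' : Cf C T)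
    (v : V) : Prop := ∀ c (w : (C c).Wk T), w.meets (nod L (om c) v) → om' c w = om c w

/-- bound for the number of nodes read by a good vertex -/
def NB (L K0 : ℕ) : ℝ := (4 * L + 5) * (1 + K0 * (4 * L + 5) + K0)

/-- SUM (section 5): the lopsided local lemma for the walks -/
def SUMStmt : Prop := ∀ (V : Type) [Fintype V] (n : ℕ) (C : Fin n → Cl V) (d : ℝ) (T : ℕ)
  (p z r : ℝ) (L K0 : ℕ), 1 ≤ n → (∀ c, Par (C c) d T p z r) → 1 ≤ L → T ≤ L → 2 ≤ K0 →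
  ∀ (TY : Type) [Fintype TY] (A : TY → V → Set (Cf C T)) (ε : ℝ), 0 ≤ ε → ε ≤ 1 / 4 →
    (∀ τ v om om', agr L om om' v → (om' ∈ A τ v ↔ om ∈ A τ v)) →
    (∀ τ v om, om ∈ A τ v → ∀ c, ∀ u ∈ nod L (om c) v, mult (om c) u < K0) →
    (∀ τ v c om, PC C T p {et | fixc c om et ∈ A τ v} ≤ ε) →
    ∀ (I : Fin n → V → Finset V) (rel : Fin n → V → Prop) (M0 : ℕ) (ε6 : ℝ), 0 ≤ ε6 →
      ε6 ≤ 1 / 4 → (∀ c v, (I c v).card ≤ M0) →
      (∀ c u, (univ.filter fun v => rel c v ∧ u ∈ I c v).card ≤ M0) →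
      (∀ c v, rel c v → (C c).Pr T p {om | ∀ u ∈ I c v, mult om u = 0} ≤ ε6) →
      (n : ℝ) * K0 * NB L K0 * (T + 1) *
          (Fintype.card TY * ε * (200 * ((L : ℝ) + 1) ^ 2) + M0 * ε6) +
        n * (NB L K0 + M0) * (Fintype.card TY * ε * (400 * ((L : ℝ) + 1) ^ 3) +
          (T + 1) * (2 * r) ^ K0) ≤ 1 / 4 →
      ∃ om : Cf C T, (∀ τ v, om ∉ A τ v) ∧ (∀ c u, mult (om c) u < K0) ∧
        ∀ c v, rel c v → ∃ u ∈ I c v, mult (om c) u ≠ 0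

/-- every `L1` consecutive nodes of a path of the class contain a marked node -/
def MK {V : Type} (C : Cl V) (L1 : ℕ) : Prop :=
  ∀ u, (∀ j, j < L1 → it C.f j u ≠ none) → ∃ j x, j < L1 ∧ it C.f j u = some x ∧ C.M x

/-- ISE: the marked sets on the long paths of the old class -/
def ISEStmt : Prop := ∀ (V : Type) [Fintype V] (C : Cl V) (L0 L1 : ℕ), PInj C.f → 1 ≤ L1 →
  (∀ x m, 1 ≤ m → it C.f m x = some x → L0 ≤ m) → MK C L1 →
  ∃ I : V → Finset V, (∀ v u, u ∈ I v → C.M u ∧ ∃ j, j < L0 ∧ it C.f j v = some u) ∧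
    (∀ v, (∀ j, j < L0 → it C.f j v ≠ none) → (I v).card = L0 / L1) ∧
    (∀ v, (I v).card ≤ L0) ∧ ∀ u, (univ.filter fun v => u ∈ I v).card ≤ L0

/-- the result of the coins (section 6) -/
structure Coins {V : Type} [Fintype V] {n : ℕ} {C : Fin n → Cl V} {T : ℕ} (L A m0 : ℕ)
    (τ : ℕ → ℕ) (om : Cf C T) (κ : ℕ → Fin n → V → Bool) : Prop where
  ka : ∀ a, a < A → ∀ c w i l t, clo (om c) w i l t → τ a < t → t ≤ τ (a + 1) →
    ∃ j u y, j < τ a ∧ w.hd l y ∧ it (cx (rem (om c) w)) j y = some u ∧ (C c).M u ∧ κ a c u = true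
  kA : ∀ c u, (∀ j, j < L → it (cx (om c)) j u ≠ none) →
    (∀ a b, a < b → b < L → it (cx (om c)) a u ≠ it (cx (om c)) b u) →
    ∃ j x, j < L ∧ it (cx (om c)) j u = some x ∧ (C c).M x ∧ κ A c x = true
  kb : ∀ v, ((range (A + 1) ×ˢ (univ : Finset (Fin n))).filter fun x => κ x.1 x.2 v = true ∧
    (x.1 = A ∨ Iv (τ x.1) (τ (x.1 + 1)) (om x.2) v)).card < m0
  kb' : ∀ v, ((range (A + 1) ×ˢ (univ : Finset (Fin n))).filter fun x =>
    (∃ v', cx (om x.2) v' = some v ∧ κ x.1 x.2 v' = true) ∧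
    (x.1 = A ∨ Iv (τ x.1) (τ (x.1 + 1)) (om x.2) v)).card < m0

/-- COI (section 6) -/
def COIStmt : Prop := ∀ (V : Type) [Fintype V] (n : ℕ) (C : Fin n → Cl V) (d : ℝ)
  (T L L1 K0 A m0 : ℕ) (τ m : ℕ → ℕ) (π : ℕ → ℝ) (ε : ℝ) (om : Cf C T),
  (∀ c, (C c).Ok d) → 1 ≤ L → T ≤ L → 1 ≤ L1 → 1 ≤ m0 → (∀ c, MK (C c) L1) → τ A = L →
  (∀ a, a < A → τ a ≤ τ (a + 1)) → (∀ c u, mult (om c) u < K0) →
  (∀ a, a < A → ∀ v, (univ.filter fun c => Iv (τ a) (τ (a + 1)) (om c) v).card ≤ m a) →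
  (∀ a, 0 ≤ π a ∧ π a ≤ 1) → 0 ≤ ε → (∀ a, a ≤ A → (1 - π a) ^ (τ a / L1) ≤ ε) →
  (Real.exp 1 * ((∑ a ∈ range A, m a * π a) + n * π A) / m0) ^ m0 ≤ ε →
  4 * ε * ((((A : ℝ) + 1) * n + L) * (2 + L + K0 * (4 * L + 5) * (T : ℝ) ^ 2)) ≤ 1 → 4 * ε ≤ 1 →
  ∃ κ : ℕ → Fin n → V → Bool, Coins L A m0 τ om κ

/-- the output -/
structure Out {V : Type} [Fintype V] {n : ℕ} (C : Fin n → Cl V) (C0 : ℕ)
    (D : Fin n → V → Option V) : Prop where
  inj : ∀ c, PInj (D c)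
  arc : ∀ c x y, D c x = some y → (C c).f x = some y ∨ ((C c).M x ∧ (C c).P x y)
  dom : ∀ c x y, D c x = some y → ∃ y', (C c).f x = some y'
  ran : ∀ c x y, D c x = some y → ∃ x', (C c).f x' = some y
  unm : ∀ c x, ¬ (C c).M x → D c x = (C c).f x
  dis : ∀ c c' x y, D c x = some y → D c' x = some y → c = c'
  acy : ∀ c x m, 1 ≤ m → it (D c) m x ≠ some x
  def' : ∀ v, (univ.filter fun c => (∃ y, (C c).f v = some y) ∧ D c v = none).card +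
    (univ.filter fun c => (∃ x, (C c).f x = some v) ∧ ∀ x, D c x ≠ some v).card ≤ C0

/-- FIN (section 7): deterministic -/
def FINStmt : Prop := ∀ (V : Type) [Fintype V] (n : ℕ) (C : Fin n → Cl V) (d : ℝ)
  (T L L0 A m0 : ℕ) (τ : ℕ → ℕ) (om : Cf C T) (κ : ℕ → Fin n → V → Bool),
  (∀ c, (C c).Ok d) → (∀ c c', (C c).P = (C c').P) → 1 ≤ T → 1 ≤ m0 →
  (∀ c c' x y, (C c).f x = some y → (C c').f x = some y → c = c') →
  (∀ c v, (∀ j, j < L0 → it (C c).f j v ≠ none) →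
    ∃ j u, it (C c).f j v = some u ∧ mult (om c) u ≠ 0) →
  τ A = L → (∀ a, a < A → τ a ≤ τ (a + 1)) → 1 ≤ A →
  (∀ v, (univ.filter fun c => Dv (om c) v).card ≤ m0) →
  (∀ v, (univ.filter fun c => Jt (τ 0) (om c) v).card ≤ m0) →
  (∀ v, (univ.filter fun c => Jh (τ 0) (om c) v).card ≤ m0) →
  (∀ v, om ∉ dupO m0 v) → (∀ v, om ∉ dupI m0 v) → Coins L A m0 τ om κ →
  ∃ D : Fin n → V → Option V, Out C (12 * m0) D

end

end Pool.Agent.C4K
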