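import Pool.Agent.C4K.StMul

/-!
# The final theorem on walks and the numerical statements
-/

set_option autoImplicit false

namespace Pool.Agent.C4K

open Finset Cl
open scoped Classical

noncomputable section

/-- length of the walks -/
def kT (k : ℝ) : ℕ := ⌊k ^ (0.476 : ℝ)⌋₊
/-- intensity -/
def kr (k : ℝ) : ℝ := k ^ (-0.53 : ℝ)
/-- density of starts -/
def kz (k : ℝ) : ℝ := kr k / ((kT k : ℝ) + 1)
/-- length of the old cycles -/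
def kL0 (k : ℝ) : ℕ := ⌈k ^ (0.539 : ℝ) / 4⌉₊
/-- distance of marked nodes -/
def kL1 (k : ℝ) : ℕ := ⌊k ^ (0.003 : ℝ)⌋₊
/-- the exponents of the scales -/
def kex (a : ℕ) : ℝ :=
  ([0.5, 0.67, 0.78, 0.85, 0.90, 0.935, 0.96, 0.98, 0.993, 1.002, 1.008] : List ℝ).getD a 1.012
/-- scales -/
def kτ (k : ℝ) (a : ℕ) : ℕ := ⌈k ^ kex a⌉₊
/-- longest scale -/
def kL (k : ℝ) : ℕ := kτ k 11
/-- rates of the coins -/
def kπ (k : ℝ) (a : ℕ) : ℝ := 8 * Real.log k ^ 2 * kL1 k / kτ k a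
/-- bound for the probability of a closure with at most `t` steps through a vertex -/
def kq (k d : ℝ) (t : ℕ) : ℝ :=
  2 * (kr k * (30 * (t * Real.sqrt t) / d + 16 * kT k * (t : ℝ) ^ 2 / d ^ 2))
/-- thresholds -/
def km (k : ℝ) (n : ℕ) (d : ℝ) (a : ℕ) : ℕ :=
  ⌈k ^ (0.001 : ℝ) * (n * kq k d (kτ k (a + 1)))⌉₊ + 100000
/-- probability of the bad events -/
def kε (k : ℝ) : ℝ := k ^ (-60 : ℝ)
/-- probability that no walk hits a marked set -/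
def kε6 (k : ℝ) : ℝ := Real.exp (-(kr k * (kL0 k / kL1 k : ℕ) / 12))

/-- the parameters `d`, `s1`, `p` -/
def kd (s eps : ℝ) : ℝ := (1 + eps) * s
def ks1 (s eps : ℝ) : ℝ := (1 - eps) * s
def kp (k s : ℝ) : ℝ := kz k / s ^ kT k

/-- hypotheses on the numbers -/
structure NH (k : ℝ) (n : ℕ) (s eps : ℝ) : Prop where
  n1 : 1 ≤ n
  nk : (n : ℝ) ≤ k
  s1 : k ^ (0.99 : ℝ) ≤ s
  s2 : s ≤ k
  e0 : 0 ≤ eps
  e1 : eps * k ^ (0.476 : ℝ) ≤ 1 / 10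

/-- first part: one class -/
structure Nu1 (k s eps : ℝ) : Prop where
  T1 : 1 ≤ kT k
  Td : 100 * (kT k : ℝ) ≤ kd s eps
  d1 : 1 ≤ kd s eps
  p0 : 0 < kp k s
  ph : kp k s ≤ 1 / 2
  pd : kp k s * kd s eps ^ kT k ≤ 2 * kz k
  z0 : 0 < kz k
  zr : ((kT k : ℝ) + 1) * kz k = kr k
  r1 : 2 * kr k ≤ 1
  s0 : 0 ≤ ks1 s eps
  low : 9 / 10 * kz k ≤ kp k s * ks1 s eps ^ kT k
  h1 : 100 * Real.sqrt (kL0 k / kL1 k : ℕ) ≤ kd s eps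
  h2 : 100 * kT k * ((kL0 k / kL1 k : ℕ) : ℝ) ≤ kd s eps ^ 2
  L1 : 1 ≤ kL1 k
  L : 1 ≤ kL k
  TL : kT k ≤ kL k
  mono : ∀ a, a < 11 → kτ k a ≤ kτ k (a + 1)
  tau1 : ∀ a, 1 ≤ kτ k a

def NU1Stmt : Prop := ∃ k0 : ℝ, ∀ k n s eps, k0 ≤ k → NH k n s eps → Nu1 k s eps

/-- second part: the bad events and the sum of the lopsided local lemma -/
structure Nu2 (k : ℝ) (n : ℕ) (s eps : ℝ) : Prop where
  e0 : 0 ≤ kε k
  e4 : 4 * kε k ≤ 1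
  D : (Real.exp 1 * (n * (4 * kz k + 12 * kr k ^ 2)) / (99999 : ℕ)) ^ 99999 ≤ kε k
  J : (Real.exp 1 * (n * (20 * kr k * (kτ k 0 + 1) / kd s eps)) / (99999 : ℕ)) ^ 99999 ≤ kε k
  I : ∀ a, a < 11 → (Real.exp 1 * (n * kq k (kd s eps) (kτ k (a + 1))) /
    (km k n (kd s eps) a - 1 : ℕ)) ^ (km k n (kd s eps) a - 1) ≤ kε k
  dup : (Real.exp 1 * (n ^ 2 * (4 * kr k ^ 2 / kd s eps)) / (99999 : ℕ)) ^ 99999 ≤ kε k
  e6 : kε6 k ≤ 1 / 4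
  sum : (n : ℝ) * (100 : ℕ) * NB (kL k) 100 * (kT k + 1) *
      ((16 : ℕ) * kε k * (200 * ((kL k : ℝ) + 1) ^ 2) + kL0 k * kε6 k) +
    n * (NB (kL k) 100 + kL0 k) * ((16 : ℕ) * kε k * (400 * ((kL k : ℝ) + 1) ^ 3) +
      (kT k + 1) * (2 * kr k) ^ 100) ≤ 1 / 4

def NU2Stmt : Prop := ∃ k0 : ℝ, ∀ k n s eps, k0 ≤ k → NH k n s eps → Nu2 k n s eps

/-- third part: coins -/
structure Nu3 (k : ℝ) (n : ℕ) (s eps : ℝ) : Prop where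
  p0 : ∀ a, 0 ≤ kπ k a
  p1 : ∀ a, kπ k a ≤ 1
  ka : ∀ a, a ≤ 11 → (1 - kπ k a) ^ (kτ k a / kL1 k) ≤ kε k
  kb : (Real.exp 1 * ((∑ a ∈ range 11, km k n (kd s eps) a * kπ k a) + n * kπ k 11) /
    (100000 : ℕ)) ^ 100000 ≤ kε k
  deg : 4 * kε k * ((((11 : ℕ) : ℝ) + 1) * n + kL k) *
    (2 + kL k + (100 : ℕ) * (4 * kL k + 5) * (kT k : ℝ) ^ 2) ≤ 1

def NU3Stmt : Prop := ∃ k0 : ℝ, ∀ k n s eps, k0 ≤ k → NH k n s eps → Nu3 k n s eps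

/-- **WALKS**: from classes with long cycles to linear forests, with few defects. -/
def WALKSStmt : Prop := ∃ (k0 : ℝ) (C0 : ℕ), ∀ (V : Type) [Fintype V] (N P : V → V → Prop)
  (n : ℕ) (f : Fin n → V → Option V) (M : Fin n → V → Prop) (k s eps : ℝ),
  k0 ≤ k → NH k n s eps → C4F N → (∀ x y, P x y → N x y) → (∀ c, PInj (f c)) →
  (∀ c x y, f c x = some y → N x y ∧ ¬ P x y) →
  (∀ c c' x y, f c x = some y → f c' x = some y → c = c') →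
  (∀ c x, M c x → ∃ y, f c x = some y) →
  (∀ c x, M c x → (1 - eps) * s ≤ (univ.filter fun x' => Cl.gam ⟨N, P, f c, M c⟩ x x').card ∧
    ((univ.filter fun x' => Cl.gam ⟨N, P, f c, M c⟩ x x').card : ℝ) ≤ (1 + eps) * s) →
  (∀ c x', M c x' → (1 - eps) * s ≤ (univ.filter fun x => Cl.gam ⟨N, P, f c, M c⟩ x x').card ∧
    ((univ.filter fun x => Cl.gam ⟨N, P, f c, M c⟩ x x').card : ℝ) ≤ (1 + eps) * s) →
  (∀ c x m, 1 ≤ m → it (f c) m x = some x → k ^ (0.539 : ℝ) / 4 ≤ m) →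
  (∀ c, MK ⟨N, P, f c, M c⟩ (kL1 k)) →
  ∃ D : Fin n → V → Option V, Out (fun c => ⟨N, P, f c, M c⟩) C0 D

end

end Pool.Agent.C4K
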