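import Pool.Agent.C4K.StLin

/-!
# Numerical statements with the parameter `B`, and the final theorem with the linear statistic
-/

set_option autoImplicit false

namespace Pool.Agent.C4K

open Finset Cl
open scoped Classical

noncomputable section

/-- threshold -/
def kM (B : ℕ) : ℕ := 100000 * (B + 1)
/-- bound for multiplicities -/
def kK (B : ℕ) : ℕ := 100 * (B + 1)
/-- probability of the bad events -/
def kεB (k : ℝ) (B : ℕ) : ℝ := k ^ (-(60 * ((B : ℝ) + 1)))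
/-- probability of the one class events -/
def kε7 (k : ℝ) : ℝ := Real.exp (-(k ^ (0.005 : ℝ)))
/-- supports -/
def kB1 (k : ℝ) (B : ℕ) : ℕ := ⌈k ^ (B : ℝ)⌉₊
/-- thresholds for the scales -/
def kmB (k : ℝ) (n : ℕ) (d : ℝ) (B a : ℕ) : ℕ :=
  ⌈k ^ (0.001 : ℝ) * (n * kq k d (kτ k (a + 1)))⌉₊ + kM B
/-- size of the coefficients -/
def kwm (k : ℝ) : ℝ := k ^ (-0.99 : ℝ)
/-- truncation -/
def kb (k : ℝ) : ℝ := k ^ (-0.05 : ℝ)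
/-- size of the linear sums -/
def kX (k : ℝ) : ℝ := k ^ (-0.002 : ℝ)
/-- thresholds for the linear sums at the scales -/
def kXI (k : ℝ) (n : ℕ) (d : ℝ) (a : ℕ) : ℝ :=
  700 * (n * kq k d (kτ k (a + 1))) + k ^ (0.3 : ℝ)
/-- duplicate links -/
def kX3 (k : ℝ) : ℝ := k ^ (-0.03 : ℝ)
def kY (k : ℝ) : ℝ := k ^ (0.48 : ℝ)
def kN2 (n : ℕ) : ℕ := Nat.clog 2 n

/-- bad events and the sum of the lopsided local lemma -/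
structure NuB2 (B : ℕ) (k : ℝ) (n : ℕ) (s eps : ℝ) : Prop where
  e0 : 0 ≤ kεB k B
  e4 : 4 * kεB k B ≤ 1
  D : (Real.exp 1 * (n * (4 * kz k + 12 * kr k ^ 2)) / (kM B - 1 : ℕ)) ^ (kM B - 1) ≤ kεB k B
  J : (Real.exp 1 * (n * (20 * kr k * (kτ k 0 + 1) / kd s eps)) / (kM B - 1 : ℕ)) ^ (kM B - 1) ≤
    kεB k B
  I : ∀ a, a < 11 → (Real.exp 1 * (n * kq k (kd s eps) (kτ k (a + 1))) /
    (kmB k n (kd s eps) B a - 1 : ℕ)) ^ (kmB k n (kd s eps) B a - 1) ≤ kεB k B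
  dup : (Real.exp 1 * (n ^ 2 * (4 * kr k ^ 2 / kd s eps)) / (kM B - 1 : ℕ)) ^ (kM B - 1) ≤
    kεB k B
  e7 : kε7 k ≤ 1 / 4
  h6 : Real.exp (-(kr k * (kL0 k / kL1 k : ℕ) / 12)) ≤ kε7 k
  sum : (((30 * kB1 k B : ℕ) : ℝ) * n * NB (kL k) (kK B) + (kL0 k + 3 * kB1 k B : ℕ)) *
        (kK B : ℕ) * (kT k + 1) *
        ((30 * kB1 k B : ℕ) * kεB k B * (200 * ((kL k : ℝ) + 1) ^ 2) +
          (kL0 k + 3 * kB1 k B : ℕ) * kε7 k) +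
      (((30 * kB1 k B : ℕ) : ℝ) * n * NB (kL k) (kK B) + (kL0 k + 3 * kB1 k B : ℕ)) *
        ((30 * kB1 k B : ℕ) * kεB k B * (400 * ((kL k : ℝ) + 1) ^ 3) +
          (kT k + 1) * (2 * kr k) ^ kK B +
          (kT k + 1) * (kL0 k + 3 * kB1 k B : ℕ) * kε7 k) ≤ 1 / 4

def NUB2Stmt : Prop := ∀ B : ℕ, ∃ k0 : ℝ, ∀ k n s eps, k0 ≤ k → NH k n s eps → NuB2 B k n s eps

/-- coins -/
structure NuB3 (B : ℕ) (k : ℝ) (n : ℕ) (s eps : ℝ) : Prop where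
  p0 : ∀ a, 0 ≤ kπ k a
  p1 : ∀ a, kπ k a ≤ 1
  ka : ∀ a, a ≤ 11 → (1 - kπ k a) ^ (kτ k a / kL1 k) ≤ kεB k B
  kb : (Real.exp 1 * ((∑ a ∈ range 11, kmB k n (kd s eps) B a * kπ k a) + n * kπ k 11) /
    (kM B : ℕ)) ^ kM B ≤ kεB k B
  lin : 7 * ((∑ a ∈ range 11, 2 * (kXI k n (kd s eps) a + 100) * kπ k a) +
    200 * n * kπ k 11) ≤ kX k
  exp : Real.exp (-(kX k / (2 * kwm k))) ≤ kεB k B
  deg : 4 * kεB k B * ((((11 : ℕ) : ℝ) + 1) * n + kL k + (24 * n * kB1 k B : ℕ)) *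
    (2 + kL k + (kK B : ℕ) * (4 * kL k + 5) * (kT k : ℝ) ^ 2 + (2 * kB1 k B : ℕ)) ≤ 1

def NUB3Stmt : Prop := ∀ B : ℕ, ∃ k0 : ℝ, ∀ k n s eps, k0 ≤ k → NH k n s eps → NuB3 B k n s eps

/-- linear statistic -/
structure NuB4 (B : ℕ) (k : ℝ) (n : ℕ) (s eps : ℝ) : Prop where
  w0 : 0 < kwm k
  b0 : 0 < kb k
  b1 : 4 * ((kT k : ℝ) + 1) * kwm k ≤ kb k
  b2 : 7 * (400 * kr k) ≤ kb k / 2
  a8 : Real.exp (-(kb k / (4 * ((kT k : ℝ) + 1) * kwm k))) ≤ kε7 k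
  l1 : 7 * (n * (100 * (4 * kz k + 12 * kr k ^ 2 + 2 * (20 * kr k * (kτ k 0 + 1) / kd s eps)))) ≤
    kX k
  l1e : Real.exp (-(kX k / kb k)) ≤ kεB k B
  lI : ∀ a, a < 11 → 7 * (n * (100 * kq k (kd s eps) (kτ k (a + 1)))) ≤ kXI k n (kd s eps) a
  lIe : ∀ a, a < 11 → Real.exp (-(kXI k n (kd s eps) a / 100)) ≤ kεB k B
  X3 : 0 < kX3 k
  Y1 : 1 ≤ kY k
  y1 : 7 * (200 * n * kr k) ≤ kY k
  y2 : 7 * ((2 * kr k / kd s eps) * n * (300 * (kY k + 1))) ≤ kX3 k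
  y3 : 4 * ((kN2 n : ℝ) + 1) * ((kB1 k B : ℕ) * (2 * (Real.exp 1 *
        (n ^ 2 * (4 * kr k ^ 2 / kd s eps)) / (kM B : ℕ)) ^ kM B) +
      2 * Real.exp (-(kY k / 100)) + 2 * (kB1 k B : ℕ) * Real.exp (-kY k) +
      2 * Real.exp (-(kX3 k / (8 * ((kM B : ℝ) + 1) * ((kT k : ℝ) + 1) * kwm k)))) ≤ kεB k B
  tot : (kX k + kb k) + (4 * ((kN2 n : ℝ) + 1)) * kX3 k + kX k ≤ k ^ (-0.001 : ℝ)

def NUB4Stmt : Prop := ∀ B : ℕ, ∃ k0 : ℝ, ∀ k n s eps, k0 ≤ k → NH k n s eps → NuB4 B k n s eps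

/-- the data of the linear statistic -/
structure LinH {V : Type} [Fintype V] {n : ℕ} (k : ℝ) (B : ℕ) (U : Type) [Fintype U]
    (a : U → Fin n → V → ℝ) : Prop where
  a0 : ∀ u c v, 0 ≤ a u c v
  a1 : ∀ u c v, a u c v ≤ k ^ (-0.99 : ℝ)
  s1 : ∀ u c, (∑ v, a u c v) ≤ 100
  c1 : ∀ u, ((univ.filter fun v => ∃ c, a u c v ≠ 0).card : ℝ) ≤ k ^ (B : ℝ)
  c2 : ∀ v, ((univ.filter fun u => ∃ c, a u c v ≠ 0).card : ℝ) ≤ k ^ (B : ℝ)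

/-- **WALKS** with the linear statistic. -/
def WALKSLStmt : Prop := ∀ B : ℕ, ∃ (k0 : ℝ) (C0 : ℕ), ∀ (V : Type) [Fintype V]
  (N P : V → V → Prop) (n : ℕ) (f : Fin n → V → Option V) (M : Fin n → V → Prop) (k s eps : ℝ)
  (U : Type) [Fintype U] (a : U → Fin n → V → ℝ),
  k0 ≤ k → NH k n s eps → C4F N → (∀ x y, P x y → N x y) → (∀ c, PInj (f c)) →
  (∀ c x y, f c x = some y → N x y ∧ ¬ P x y) →
  (∀ c c' x y, f c x = some y → f c' x = some y → c = c') →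
  (∀ c x, M c x → ∃ y, f c x = some y) →
  (∀ c x, M c x → (1 - eps) * s ≤ (univ.filter fun x' => Cl.gam ⟨N, P, f c, M c⟩ x x').card ∧
    ((univ.filter fun x' => Cl.gam ⟨N, P, f c, M c⟩ x x').card : ℝ) ≤ (1 + eps) * s) →
  (∀ c x', M c x' → (1 - eps) * s ≤ (univ.filter fun x => Cl.gam ⟨N, P, f c, M c⟩ x x').card ∧
    ((univ.filter fun x => Cl.gam ⟨N, P, f c, M c⟩ x x').card : ℝ) ≤ (1 + eps) * s) →
  (∀ c x m, 1 ≤ m → it (f c) m x = some x → k ^ (0.539 : ℝ) / 4 ≤ m) →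
  (∀ c, MK ⟨N, P, f c, M c⟩ (kL1 k)) → LinH k B U a →
  ∃ D : Fin n → V → Option V, Out (fun c => ⟨N, P, f c, M c⟩) C0 D ∧
    ∀ u, (∑ c, ∑ v, a u c v * (if lose (fun c => ⟨N, P, f c, M c⟩) D c v then 1 else 0)) ≤
      k ^ (-0.001 : ℝ)

end

end Pool.Agent.C4K
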