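import Pool.Agent.C4K.StCnt
import Pool.Agent.C4K.StDet
import Pool.Agent.C4M.Prob

/-!
# Statements of the probabilistic modules, one class: PRD, Q23, Q6, PLK, RCT
-/

set_option autoImplicit false

namespace Pool.Agent.C4K

open Finset Cl
open scoped Classical

noncomputable section

/-- PRD [DEF]: probability of a defect -/
def PRDStmt : Prop := ∀ (V : Type) [Fintype V] (C : Cl V) (d : ℝ) (T : ℕ) (p z r : ℝ),
  Par C d T p z r → ∀ v, C.Pr T p {om | Dv om v} ≤ 4 * z + 12 * r ^ 2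

/-- PLK: probability of a link, and of the presence of a walk through `u` -/
def PLKStmt : Prop := ∀ (V : Type) [Fintype V] (C : Cl V) (d : ℝ) (T : ℕ) (p z r : ℝ),
  Par C d T p z r →
    (∀ x y, C.Pr T p {om | lnk om x y} ≤ 2 * r / d) ∧
    (∀ x, (∑ y, C.Pr T p {om | lnk om x y}) ≤ 2 * r) ∧
    (∀ y, (∑ x, C.Pr T p {om | lnk om x y}) ≤ 2 * r) ∧
    (∀ u, C.Pr T p {om | mult om u ≠ 0} ≤ 2 * r) ∧
    (∀ u, C.E T p (fun om => (mult om u : ℝ)) ≤ 2 * r)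

/-- Q23 [Q2], [Q3] : probabilities of closures through `v` -/
def Q23Stmt : Prop := ∀ (V : Type) [Fintype V] (C : Cl V) (d : ℝ) (T : ℕ) (p z r : ℝ),
  Par C d T p z r → ∀ v,
    (∀ t0, C.Pr T p {om | Jt t0 om v} ≤ 20 * r * (t0 + 1) / d) ∧
    (∀ t0, C.Pr T p {om | Jh t0 om v} ≤ 20 * r * (t0 + 1) / d) ∧
    (∀ t1 t, 1 ≤ t → C.Pr T p {om | Iv t1 t om v} ≤
      2 * (r * (30 * (t * Real.sqrt t) / d + 16 * T * (t : ℝ) ^ 2 / d ^ 2)))

/-- Q6 [Q6]: no walk meets a given set of marked nodes -/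
def Q6Stmt : Prop := ∀ (V : Type) [Fintype V] (C : Cl V) (d : ℝ) (T : ℕ) (p z r s1 : ℝ),
  Par C d T p z r → Low C s1 T p z → ∀ I : Finset V, (∀ u ∈ I, C.M u) →
    100 * Real.sqrt I.card ≤ d → 100 * T * (I.card : ℝ) ≤ d ^ 2 →
    C.Pr T p {om | ∀ u ∈ I, mult om u = 0} ≤ Real.exp (-(r * I.card / 12))

/-- RCT [R5], [R6]: the number of vertices which read a given node -/
def RCTStmt : Prop := ∀ (V : Type) [Fintype V] (C : Cl V) (d : ℝ) (T : ℕ) (p z r : ℝ) (L : ℕ),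
  Par C d T p z r → 1 ≤ L → T ≤ L → ∀ u,
    C.E T p (fun om => ((univ.filter fun v => u ∈ nod L om v).card : ℝ)) ≤
      200 * ((L : ℝ) + 1) ^ 2 ∧
    (∀ w, C.E T p (fun om => ((univ.filter fun v => u ∈ nod L (ins om w) v).card : ℝ)) ≤
      200 * ((L : ℝ) + 1) ^ 2) ∧
    C.E T p (fun om => ((univ.filter fun v => ∃ w : C.Wk T, om w = true ∧ w.has u ∧
      w.meets (nod L om v)).card : ℝ)) ≤ 400 * ((L : ℝ) + 1) ^ 3

/-- MK0: the probability that `K0` walks through one of the nodes are present, as a sum over sets of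
walks: `∑ over S ⊆ {w : w.has u}, card S = K0, of p ^ K0` is at most `(2 r) ^ K0`, and with one walk
of `S` through the node `u0` -/
def MK0Stmt : Prop := ∀ (V : Type) [Fintype V] (C : Cl V) (d : ℝ) (T : ℕ) (p z r : ℝ) (K0 : ℕ),
  Par C d T p z r → 1 ≤ K0 →
    (∀ u, (∑ _S ∈ (univ : Finset (Finset (C.Wk T))).filter
      (fun S => S.card = K0 ∧ ∀ w ∈ S, w.has u), p ^ K0) ≤ (2 * r) ^ K0) ∧
    (∀ u0, (∑ _S ∈ (univ : Finset (Finset (C.Wk T))).filter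
      (fun S => S.card = K0 ∧ (∃ u, ∀ w ∈ S, w.has u) ∧ ∃ w ∈ S, w.has u0), p ^ K0) ≤
      ((T : ℝ) + 1) * (2 * r) ^ K0)

end

end Pool.Agent.C4K
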